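import Mathlib
import Pool.Agent.H895Z.WDeg
import Pool.Agent.H895Z.WEmbed
import Pool.Agent.H895Z.WReals

set_option autoImplicit false

namespace Pool.Agent.Results.MP_d0967d_lc.ConsistentlyNo

open Cardinal Pool.Agent.H895Z.Wei

/-- (1) Some forcing notion forces the principle: `|X| = 𝔠`, `|Z| ≤ 2 ^ |X|`, and no injective
family of subsets of `X` indexed by `Z` is a chain. (2) In ZFC the principle implies that every
chain of Weihrauch degrees has size less than `2 ^ 𝔠`, so some maximal chain has size less than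
`2 ^ 𝔠`. -/
theorem result :
    (∃ (P : Type) (_ : Preorder P) (X Z : Type), Nonempty P ∧ ∀ p : P, p ∈ FPrinciple P X Z) ∧
    (∀ X Z : Type, Principle X Z →
      (∀ C : Set Degree, IsChain (· ≤ ·) C → #C < 2 ^ 𝔠) ∧
      ∃ C : Set Degree, IsMaxChain (· ≤ ·) C ∧ #C < 2 ^ 𝔠) :=
  ⟨forcing_part, fun _ _ h => zfc_part h⟩

end Pool.Agent.Results.MP_d0967d_lc.ConsistentlyNo
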